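import Pool.Agent.Lib.P47c.Model
import Pool.Agent.Lib.P47c.Gamma
import Pool.Agent.Lib.P47s.Bi
import Pool.Agent.Lib.P47s.FUB
import Pool.Agent.Lib.P47s.FLB

/-!
The exact trade-off between the factors for opening costs and service costs that convex programs and
the sum-of-squares hierarchy reach for metric facility location when every facility-client distance
is 1 or `D`.

Definitions: `Space` in `Pool/Agent/Lib/P47c/Defs.lean`; `Inst`, `Inst.cost`, `Inst.opt`,
`Inst.rename`, `Inst.Nearest`, `Inst.TwoDistance` in `Pool/Agent/Lib/P47c/Model.lean`; `Poly`, `SosF`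
in `Pool/Agent/Lib/P47s/Model.lean`; `wcost`, `Bifactor` in `Pool/Agent/Lib/P47s/Bi.lean`.
-/

namespace Pool.Agent.Results.MP_47cc85_lc.FacilityTwoDistance

open Pool.Agent.Lib.P47c Pool.Agent.Lib.P47s

/-- Let `1 < D ≤ 3`. For all numbers `m` of facilities and `M` of potential clients there is a
linear program with at most `2 (m + 1) (M + 1)` inequalities that approximates the minimum cost of
every facility location instance with distances 1 and `D` within the factors `a` (opening costs) and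
`b` (service costs), for all `a ≥ 1` and `b ≥ 1 + (D - 1) exp (-a)`. On the other hand, for all
`a, b ≥ 1` with `b < 1 + (D - 1) exp (-a)` there is `Q` such that for all large `m` there are a number
`M ≤ m ^ Q` and one such instance with at most `m` clients for which every convex program with at
most `exp (m ^ (1/72))` constraints of dimension at most `m ^ (1/72)`, together with all constraints
of degree `2 t` of the sum-of-squares hierarchy, `t ≤ m ^ (1/72)`, approximates the minimum cost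
within the factors `a` and `b` for at most a fraction `exp (-m ^ (1/72))` of the renamings of the
facilities and clients. For `a = b = α` the condition `b < 1 + (D - 1) exp (-a)` is equivalent to
`α < 1 + γ`, where `γ > 0` and `1 + (D - 1) exp (-(1 + γ)) = 1 + γ`; for `D = 3` it is
`1 + γ > 1.463`. -/
theorem result (D : ℝ) (hD : 1 < D) (hD3 : D ≤ 3) :
    (∀ m M : ℕ, ∃ (Y : Type) (_ : AddCommGroup Y) (_ : Module ℝ Y) (R : ℕ)
      (A : Fin R → Y →ₗ[ℝ] ℝ) (c : Fin R → ℝ) (pt : Finset (Fin m) → (Fin M → Fin m) → Y),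
      R ≤ 2 * (m + 1) * (M + 1) ∧
      (∀ S σ, S.Nonempty → (∀ j, σ j ∈ S) → ∀ i, A i (pt S σ) ≤ c i) ∧
      ∀ I : Inst m M, I.TwoDistance D → ∀ a b : ℝ, 1 ≤ a → 1 + (D - 1) * Real.exp (-a) ≤ b →
        Bifactor I {y | ∀ i, A i y ≤ c i} pt a b) ∧
    (∀ a b : ℝ, 1 ≤ a → 1 ≤ b → b < 1 + (D - 1) * Real.exp (-a) → ∃ Q m0 : ℕ, ∀ m ≥ m0,
      ∃ (M : ℕ) (I : Inst m M), M ≤ m ^ Q ∧ I.clients.card ≤ m ∧ I.TwoDistance D ∧
      ∀ (Y : Type) [AddCommGroup Y] [Module ℝ Y] (R d t : ℕ)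
        (A : Fin R → Y →ₗ[ℝ] (Fin d → ℝ)) (C : Fin R → Set (Fin d → ℝ))
        (pt : Finset (Fin m) → (Fin M → Fin m) → Y),
        (R : ℝ) ≤ Real.exp ((m : ℝ) ^ (1 / 72 : ℝ)) → (d : ℝ) ≤ (m : ℝ) ^ (1 / 72 : ℝ) →
        (t : ℝ) ≤ (m : ℝ) ^ (1 / 72 : ℝ) → (∀ i, Convex ℝ (C i)) →
        (∀ S σ, S.Nonempty → (∀ j, σ j ∈ S) → ∀ i, A i (pt S σ) ∈ C i) →
        (Nat.card {g : Equiv.Perm (Fin m) × Equiv.Perm (Fin M) //
          Bifactor (I.rename g.1 g.2) ({y | ∀ i, A i y ∈ C i} ∩ SosF pt t) pt a b} : ℝ) ≤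
          Real.exp (-(m : ℝ) ^ (1 / 72 : ℝ)) * (m.factorial * M.factorial)) ∧
    ∃ γ : ℝ, 0 < γ ∧ 1 + (D - 1) * Real.exp (-(1 + γ)) = 1 + γ ∧
      (∀ α : ℝ, α < 1 + (D - 1) * Real.exp (-α) ↔ α < 1 + γ) ∧ (D = 3 → 1.463 < 1 + γ) := by
  refine ⟨fun m M => fU2 D hD m M,
    fun a b ha hb1 hb => fLow4 D hD hD3 a b hb1 (by linarith) hb, ?_⟩
  obtain ⟨γ, hγ0, hγ⟩ := exists_gamma D hD
  have h1 : (D - 1) * Real.exp (-(1 + γ)) = γ := by
    rw [← hγ, mul_assoc, ← Real.exp_add]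
    simp
  refine ⟨γ, hγ0, by rw [h1], fun α => ⟨fun h => ?_, fun h => ?_⟩, ?_⟩
  · by_contra hcon
    push Not at hcon
    have h2 : Real.exp (-α) ≤ Real.exp (-(1 + γ)) := Real.exp_le_exp.2 (by linarith)
    have h3 := mul_le_mul_of_nonneg_left h2 (by linarith : (0 : ℝ) ≤ D - 1)
    linarith
  · have h2 : Real.exp (-(1 + γ)) ≤ Real.exp (-α) := Real.exp_le_exp.2 (by linarith)
    have h3 := mul_le_mul_of_nonneg_left h2 (by linarith : (0 : ℝ) ≤ D - 1)
    linarith
  · rintro rfl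
    have := gamma_gt γ hγ0 (by rw [hγ]; norm_num)
    linarith

end Pool.Agent.Results.MP_47cc85_lc.FacilityTwoDistance
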