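import Pool.Agent.Lib.P47k.Defs
import Pool.Agent.Lib.P47k.KMU
import Pool.Agent.Lib.P47k.KML

/-!
The threshold of linear and convex programs for continuous Euclidean k-means on graph instances.

Definitions: `unit`, `KInst`, `KInst.cost`, `KInst.opt`, `KInst.centres`, `KInst.rename`,
`KInst.Nearest`, `KInst.ApproxBy`, `KInst.IsGraph`, `KInst.far` in `Pool/Agent/Lib/P47k/Defs.lean`.
-/

namespace Pool.Agent.Results.MP_47cc85_lc.KMeansGraph

open Pool.Agent.Lib.P47k

/-- Graph instances of continuous Euclidean k-means: the points are sums `e_p + e_q` of two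
different unit vectors that are candidate centres and far points `(4 M + 4) e_p` that are candidate
centres. (1) One linear program with at most `2 (m + 1) (M + 1)` inequalities approximates the
optimum over all sets of at most `k` centres in `ℝ ^ N` within the factor `5/4 + 3 / (4 (k - u))`
for all graph instances with `m` candidate centres, points named in `Fin M` and `u < k` far points.
(2) For every `1 ≤ α < 5/4` there are `Q` and `a > 0` such that for every `K` and all large `m`
there is a graph instance with `m` candidate centres, at most `m` points, `M ≤ m ^ Q` and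
`u + K ≤ k` for which every convex program with at most `exp (m ^ a)` constraints of dimension at
most `m ^ a` approximates the optimum within the factor `α` for at most a fraction `exp (-m ^ a)`
of the renamings of the candidate centres and points. -/
theorem result :
    (∀ m M k : ℕ, ∃ (Y : Type) (_ : AddCommGroup Y) (_ : Module ℝ Y) (R : ℕ)
      (A : Fin R → Y →ₗ[ℝ] ℝ) (c : Fin R → ℝ) (pt : Finset (Fin m) → (Fin M → Fin m) → Y),
      R ≤ 2 * (m + 1) * (M + 1) ∧
      (∀ S σ, S.Nonempty → S.card ≤ k → (∀ j, σ j ∈ S) → ∀ i, A i (pt S σ) ≤ c i) ∧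
      ∀ I : KInst m M, I.IsGraph → I.far.card < k →
        I.ApproxBy {y | ∀ i, A i y ≤ c i} pt k (5 / 4 + 3 / (4 * ((k : ℝ) - I.far.card)))) ∧
    ∀ α : ℝ, 1 ≤ α → α < 5 / 4 → ∃ (Q : ℕ) (a : ℝ), 0 < a ∧ ∀ K : ℕ, ∃ m0 : ℕ, ∀ m ≥ m0,
      ∃ (M k : ℕ) (I : KInst m M), M ≤ m ^ Q ∧ k ≤ m ∧ I.clients.card ≤ m ∧ I.IsGraph ∧
      I.far.card + K ≤ k ∧
      ∀ (Y : Type) [AddCommGroup Y] [Module ℝ Y] (R d : ℕ)
        (A : Fin R → Y →ₗ[ℝ] (Fin d → ℝ)) (C : Fin R → Set (Fin d → ℝ))
        (pt : Finset (Fin m) → (Fin M → Fin m) → Y),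
        (R : ℝ) ≤ Real.exp ((m : ℝ) ^ a) → (d : ℝ) ≤ (m : ℝ) ^ a → (∀ i, Convex ℝ (C i)) →
        (∀ S σ, S.Nonempty → S.card ≤ k → (∀ j, σ j ∈ S) → ∀ i, A i (pt S σ) ∈ C i) →
        (Nat.card {g : Equiv.Perm (Fin m) × Equiv.Perm (Fin M) //
          (I.rename g.1 g.2).ApproxBy {y | ∀ i, A i y ∈ C i} pt k α} : ℝ) ≤
          Real.exp (-(m : ℝ) ^ a) * (m.factorial * M.factorial) :=
  ⟨kmUp, kmLow⟩

end Pool.Agent.Results.MP_47cc85_lc.KMeansGraph
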