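import Pool.Agent.Lib.P47k.Defs
import Pool.Agent.Lib.P47j.Hub
import Pool.Agent.Lib.P47j.UpJ
import Pool.Agent.Lib.P47j.KJL

/-!
The threshold `1 + 1 / e` for linear and convex programs for continuous Euclidean k-means.

Definitions: `unit`, `KInst`, `KInst.cost`, `KInst.opt`, `KInst.centres`, `KInst.rename`,
`KInst.Nearest`, `KInst.ApproxBy` in `Pool/Agent/Lib/P47k/Defs.lean`; `IsHub` in
`Pool/Agent/Lib/P47j/Hub.lean`.
-/

namespace Pool.Agent.Results.MP_47cc85_lc.KMeansJohnson

open Pool.Agent.Lib.P47k Pool.Agent.Lib.P47j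

/-- Hub instances of continuous Euclidean k-means: every point outside of a set `F` of far points
has the squared distances `1` or at least `2` to the candidate centres, and `2` to some candidate
centre in the set `H` of the hubs; the far points are candidate centres far from everything else.
(1) One linear program with at most `2 (m + 1) (M + 1)` inequalities approximates the optimum over
all sets of at most `k` centres in `ℝ ^ N` within the factor
`1 + 1 / e + (1 - 1 / e) |H| / (k - |F|)` for all hub instances with `m` candidate centres, points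
named in `Fin M`, `|F| < k` and `|F| + |H| ≤ k`.
(2) For every `1 ≤ α < 1 + 1 / e` there are `Q` and `a > 0` such that for every `K` and all large
`m` there is a hub instance with `m` candidate centres, at most `m` points, `M ≤ m ^ Q`, `1 ≤ |H|`
and `|F| + K |H| ≤ k` for which every convex program with at most `exp (m ^ a)` constraints of
dimension at most `m ^ a` approximates the optimum within the factor `α` for at most a fraction
`exp (-m ^ a)` of the renamings of the candidate centres and points. -/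
theorem result :
    (∀ m M k : ℕ, ∃ (Y : Type) (_ : AddCommGroup Y) (_ : Module ℝ Y) (R : ℕ)
      (A : Fin R → Y →ₗ[ℝ] ℝ) (c : Fin R → ℝ) (pt : Finset (Fin m) → (Fin M → Fin m) → Y),
      R ≤ 2 * (m + 1) * (M + 1) ∧
      (∀ S σ, S.Nonempty → S.card ≤ k → (∀ j, σ j ∈ S) → ∀ i, A i (pt S σ) ≤ c i) ∧
      ∀ (I : KInst m M) (H : Finset (Fin m)) (F : Finset (Fin M)), IsHub I H F → F.card < k →
        F.card + H.card ≤ k →
        I.ApproxBy {y | ∀ i, A i y ≤ c i} pt k
          (1 + 1 / Real.exp 1 +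
            (1 - 1 / Real.exp 1) * ((H.card : ℝ) / ((k : ℝ) - F.card)))) ∧
    ∀ α : ℝ, 1 ≤ α → α < 1 + 1 / Real.exp 1 → ∃ (Q : ℕ) (a : ℝ), 0 < a ∧ ∀ K : ℕ, ∃ m0 : ℕ,
      ∀ m ≥ m0, ∃ (M k : ℕ) (I : KInst m M) (H : Finset (Fin m)) (F : Finset (Fin M)),
      M ≤ m ^ Q ∧ k ≤ m ∧ I.clients.card ≤ m ∧ IsHub I H F ∧ 1 ≤ H.card ∧
      F.card + K * H.card ≤ k ∧
      ∀ (Y : Type) [AddCommGroup Y] [Module ℝ Y] (R d : ℕ)
        (A : Fin R → Y →ₗ[ℝ] (Fin d → ℝ)) (C : Fin R → Set (Fin d → ℝ))
        (pt : Finset (Fin m) → (Fin M → Fin m) → Y),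
        (R : ℝ) ≤ Real.exp ((m : ℝ) ^ a) → (d : ℝ) ≤ (m : ℝ) ^ a → (∀ i, Convex ℝ (C i)) →
        (∀ S σ, S.Nonempty → S.card ≤ k → (∀ j, σ j ∈ S) → ∀ i, A i (pt S σ) ∈ C i) →
        (Nat.card {g : Equiv.Perm (Fin m) × Equiv.Perm (Fin M) //
          (I.rename g.1 g.2).ApproxBy {y | ∀ i, A i y ∈ C i} pt k α} : ℝ) ≤
          Real.exp (-(m : ℝ) ^ a) * (m.factorial * M.factorial) :=
  ⟨kjUp, kjLow⟩

end Pool.Agent.Results.MP_47cc85_lc.KMeansJohnson
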