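import Pool.Agent.Lib.P47c.Model
import Pool.Agent.Lib.P47s.Model
import Pool.Agent.Lib.P47m.Defs
import Pool.Agent.Lib.P47m.KUB
import Pool.Agent.Lib.P47m.KLB

/-!
The exact trade-off between the number of centres and the cost that convex programs and the
sum-of-squares hierarchy reach for metric k-median when all distances between facilities and clients
are 1 or `D`, apart from isolated clients.

Definitions: `Space` in `Pool/Agent/Lib/P47c/Defs.lean`; `Inst`, `Inst.cost`, `Inst.opt`,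
`Inst.rename`, `Inst.Nearest` in `Pool/Agent/Lib/P47c/Model.lean`; `Poly`, `SosK` in
`Pool/Agent/Lib/P47s/Model.lean`; `Isolated`, `ApproxCentres` in `Pool/Agent/Lib/P47m/Defs.lean`.
-/

namespace Pool.Agent.Results.MP_47cc85_lc.KMedianTradeoff

open Pool.Agent.Lib.P47c Pool.Agent.Lib.P47s Pool.Agent.Lib.P47m

/-- (1) For all `m`, `M`, `k` there is one linear program for solutions with at most `k` centres,
with at most `2 (m + 1) (M + 1)` inequalities, that for every `D > 1`, every k-median instance with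
the distances 1 and `D` apart from `u < k` isolated clients, and every `K > u` approximates the
minimum cost of `K` centres within the factor `1 + (D - 1) exp (- (K - u) / (k - u))`.
(2) Let `1 < D ≤ 3`, `0 ≤ a` and `1 ≤ b < 1 + (D - 1) exp (-a)`. There is `Q` such that for every `K0`
and all large `m` there are `M ≤ m ^ Q`, `u`, `k` with `u + K0 ≤ k ≤ m` and one such instance with
`m` facilities and at most `m` clients for which, for all `K ≤ u + a (k - u)`, every convex program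
for solutions with at most `k` centres, with at most `exp (m ^ (1/72))` constraints of dimension at
most `m ^ (1/72)`, together with all constraints of degree `2 t` of the sum-of-squares hierarchy,
`t ≤ m ^ (1/72)`, approximates the minimum cost of `K` centres within the factor `b` for at most a
fraction `exp (-m ^ (1/72))` of the renamings of the facilities and clients. -/
theorem result :
    (∀ m M k : ℕ, ∃ (Y : Type) (_ : AddCommGroup Y) (_ : Module ℝ Y) (R : ℕ)
      (A : Fin R → Y →ₗ[ℝ] ℝ) (c : Fin R → ℝ) (pt : Finset (Fin m) → (Fin M → Fin m) → Y),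
      R ≤ 2 * (m + 1) * (M + 1) ∧
      (∀ S σ, S.Nonempty → S.card ≤ k → (∀ j, σ j ∈ S) → ∀ i, A i (pt S σ) ≤ c i) ∧
      ∀ (I : Inst m M) (D : ℝ) (u K : ℕ), 1 < D → Isolated D u I → u < k → u < K →
        ApproxCentres I {y | ∀ i, A i y ≤ c i} pt k K
          (1 + (D - 1) * Real.exp (-(((K : ℝ) - u) / ((k : ℝ) - u))))) ∧
    ∀ D a b : ℝ, 1 < D → D ≤ 3 → 0 ≤ a → 1 ≤ b → b < 1 + (D - 1) * Real.exp (-a) →
      ∃ Q : ℕ, ∀ K0 : ℕ, ∃ m0 : ℕ, ∀ m ≥ m0, ∃ (M u k : ℕ) (I : Inst m M), M ≤ m ^ Q ∧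
      u < k ∧ u + K0 ≤ k ∧ k ≤ m ∧ I.clients.card ≤ m ∧ Isolated D u I ∧
      ∀ K : ℕ, 1 ≤ K → (K : ℝ) ≤ u + a * ((k : ℝ) - u) →
      ∀ (Y : Type) [AddCommGroup Y] [Module ℝ Y] (R d t : ℕ)
        (A : Fin R → Y →ₗ[ℝ] (Fin d → ℝ)) (C : Fin R → Set (Fin d → ℝ))
        (pt : Finset (Fin m) → (Fin M → Fin m) → Y),
        (R : ℝ) ≤ Real.exp ((m : ℝ) ^ (1 / 72 : ℝ)) → (d : ℝ) ≤ (m : ℝ) ^ (1 / 72 : ℝ) →
        (t : ℝ) ≤ (m : ℝ) ^ (1 / 72 : ℝ) → (∀ i, Convex ℝ (C i)) →
        (∀ S σ, S.Nonempty → S.card ≤ k → (∀ j, σ j ∈ S) → ∀ i, A i (pt S σ) ∈ C i) →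
        (Nat.card {g : Equiv.Perm (Fin m) × Equiv.Perm (Fin M) //
          ApproxCentres (I.rename g.1 g.2) ({y | ∀ i, A i y ∈ C i} ∩ SosK pt k t) pt k K b} : ℝ) ≤
          Real.exp (-(m : ℝ) ^ (1 / 72 : ℝ)) * (m.factorial * M.factorial) :=
  ⟨kUpD, kLowD⟩

end Pool.Agent.Results.MP_47cc85_lc.KMedianTradeoff
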